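import Pool.Agent.PCO.StmtsP
import Pool.Agent.Helper13_PFJ.SE2

/-!
# PCO squad (MP_e54c4c_gt), row SE3: Selberg's centraliser trick (boxes of codimension one)
-/

set_option autoImplicit false

open Matrix Filter Topology

namespace Pool.Agent.PCO.H21

open Pool.Agent.PFS Pool.Agent.PFJ Pool.Agent.PCO Pool.Agent.PFJ.H13

/-- **Row SE3.** -/
theorem se3 (bf1 : Bf1Stmt) (bf2 : Bf2Stmt) (zb3 : Zb3Stmt) : Se3Stmt := by
  intro n C Γ d h U v e e' σ nu hB hdim he he' hind2 hσ hnu hse hse' hsv hnn ℓ hℓ hℓs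
  classical
  have hCC : CC C Γ := h.toCC
  obtain ⟨-, hvcl, hv0, -, hstr, -, -, -, -⟩ := bf1 n C Γ hCC h.maxc U v hB
  have hpes : IsPES C Γ ![e, e', v] := (bf2 n C Γ hCC h.maxc U v hB).1 e e' he he' hind2
  obtain ⟨w, hw⟩ : ∃ w : Fin 3 → V n, w = ![e, e', v] := ⟨_, rfl⟩
  rw [← hw] at hpes ⊢
  have e0 : w 0 = e := by rw [hw]; rfl
  have e1 : w 1 = e' := by rw [hw]; rfl
  have e2 : w 2 = v := by rw [hw]; rfl
  have hnui : ∀ i, act σ (w i) = nu i • w i := by
    intro i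
    fin_cases i
    · show act σ (w 0) = nu 0 • w 0
      rw [e0]; exact hse
    · show act σ (w 1) = nu 1 • w 1
      rw [e1]; exact hse'
    · show act σ (w 2) = nu 2 • w 2
      rw [e2]; exact hsv
  have hwcl : ∀ i, w i ∈ closure C := by
    intro i
    fin_cases i
    · show w 0 ∈ closure C
      rw [e0]; exact he.2.1
    · show w 1 ∈ closure C
      rw [e1]; exact he'.2.1
    · show w 2 ∈ closure C
      rw [e2]; exact hvcl
  have hw0 : ∀ i, w i ≠ 0 := by
    intro i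
    fin_cases i
    · show w 0 ≠ 0
      rw [e0]; exact he.2.2.1
    · show w 1 ≠ 0
      rw [e1]; exact he'.2.2.1
    · show w 2 ≠ 0
      rw [e2]; exact hv0
  -- the zooming sequence
  obtain ⟨φ, g, s, U', W, hφ, hg, hs, hBW, hdW, hPW, hB0, hB1, hI2, hlim, himg, hkap⟩ :=
    zb3 n C Γ d h U v e e' hB hdim he he' hind2 (fun m i => Real.exp ((m : ℝ) * ℓ i))
      (fun m i => Real.exp_pos _)
  rw [← hw] at hlim
  have hW0 : ∀ i, W i ≠ 0 := by
    intro i
    fin_cases i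
    · exact hB0.2.2.1
    · exact hB1.2.2.1
    · exact (bf1 n C Γ hCC h.maxc U' (W 2) hBW).2.2.1
  -- finitely many conjugates
  have hp : ∑ i, W i ∈ C := by
    have := hPW.1.pos (fun _ => 1) (fun _ => one_pos)
    simpa using this
  have hfin := Pool.Agent.PFJ.H82.fixF n C Γ hCC 3 w hpes σ hσ (fun i => ⟨nu i, hnu i, hnui i⟩) g s
    (fun m i => Real.exp (((φ m : ℕ) : ℝ) * ℓ i)) (∑ i, W i) hg hs
    (fun m i => Real.exp_pos _) hp (by
      have : Tendsto (fun m => ∑ i, s m • act (g m) (Real.exp (((φ m : ℕ) : ℝ) * ℓ i) • w i))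
          atTop (𝓝 (∑ i, W i)) := tendsto_finsetSum _ fun i _ => hlim i
      refine this.congr fun m => ?_
      rw [CC.act_sum, Finset.smul_sum])
  -- an infinite set of indices with the same conjugate
  have hinf : ∃ τ : GL (Fin n) ℝ, {m : ℕ | g m * σ * (g m)⁻¹ = τ}.Infinite := by
    by_contra hcon
    push Not at hcon
    have hun : (Set.univ : Set ℕ) ⊆ ⋃ τ ∈ (Set.range fun m => g m * σ * (g m)⁻¹),
        {m : ℕ | g m * σ * (g m)⁻¹ = τ} := by
      intro m _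
      simp only [Set.mem_iUnion]
      exact ⟨g m * σ * (g m)⁻¹, ⟨m, rfl⟩, rfl⟩
    have : (Set.univ : Set ℕ).Finite :=
      (hfin.biUnion fun τ _ => hcon τ).subset hun
    exact Set.infinite_univ this
  obtain ⟨τ, hτ⟩ := hinf
  obtain ⟨m0, hm0⟩ := hτ.nonempty
  -- the norms
  set Q : ℕ → ℝ := fun m => ∑ i, ℓ i *
    Real.log ‖s m • act (g m) (Real.exp (((φ m : ℕ) : ℝ) * ℓ i) • w i)‖ with hQdef
  have hQ : Tendsto Q atTop (𝓝 (∑ i, ℓ i * Real.log ‖W i‖)) := by
    apply tendsto_finsetSum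
    intro i _
    exact ((hlim i).norm.log (norm_ne_zero_iff.mpr (hW0 i))).const_mul (ℓ i)
  obtain ⟨N, hN⟩ := eventually_atTop.mp
    (tend_bot ℓ hℓ Q _ hQ φ hφ (Q m0 - (φ m0 : ℝ) * ∑ i, ℓ i ^ 2))
  obtain ⟨m, hm, hmN⟩ := hτ.exists_gt N
  have hlt := hN m hmN.le
  -- the element
  set γ : GL (Fin n) ℝ := (g m0)⁻¹ * g m with hγ
  have hγΓ : γ ∈ Γ := Γ.mul_mem (Γ.inv_mem (hg m0)) (hg m)
  have hcomm : σ * γ = γ * σ := by
    have e : g m * σ * (g m)⁻¹ = g m0 * σ * (g m0)⁻¹ := by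
      rw [show g m * σ * (g m)⁻¹ = τ from hm, show g m0 * σ * (g m0)⁻¹ = τ from hm0]
    have e2 : g m * σ = g m0 * σ * (g m0)⁻¹ * g m := by
      rw [← e]; group
    rw [hγ]
    calc σ * ((g m0)⁻¹ * g m) = (g m0)⁻¹ * (g m0 * σ * (g m0)⁻¹ * g m) := by group
      _ = (g m0)⁻¹ * (g m * σ) := by rw [e2]
      _ = (g m0)⁻¹ * g m * σ := by group
  have hγact : ∀ y : V n, act (g m0) (act γ y) = act (g m) y := by
    intro y
    rw [← CC.act_mul, hγ]
    congr 2
    group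
  -- gamma preserves U
  have hmapU : ∀ y ∈ U, act γ y ∈ U := by
    intro y hy
    have h1 : act (g m) y ∈ U' := by
      rw [← himg m]
      exact mem_img.2 ⟨y, hy, rfl⟩
    rw [← himg m0] at h1
    obtain ⟨z, hz, hze⟩ := mem_img.1 h1
    rw [← hγact y] at hze
    rwa [← CC.act_injective (g m0) hze]
  have hcommact : ∀ y : V n, act σ (act γ y) = act γ (act σ y) := by
    intro y
    rw [← CC.act_mul, ← CC.act_mul, hcomm]
  have hE : ∀ i, act σ (act γ (w i)) = nu i • act γ (w i) := by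
    intro i
    rw [hcommact, hnui i, CC.act_smul]
  have hne : ∀ i, act γ (w i) ≠ 0 := by
    intro i h
    apply hw0 i
    apply CC.act_injective γ
    rw [h, CC.act_zero]
  have hcl : ∀ i, act γ (w i) ∈ closure C := fun i => hCC.act_cl hγΓ (hwcl i)
  have hbad : ∀ i j : Fin 3, nu i ≠ nu j → ∀ c : ℝ, act γ (w i) = c • w j → False := by
    intro i j hnij c hce
    have e1 := hE i
    have e2 : act σ (act γ (w i)) = nu j • act γ (w i) := by
      rw [hce, CC.act_smul, hnui j, smul_comm]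
    rw [e2] at e1
    have e3 : (nu j - nu i) • act γ (w i) = 0 := by rw [sub_smul, e1, sub_self]
    rcases smul_eq_zero.mp e3 with h | h
    · exact hnij (sub_eq_zero.mp h).symm
    · exact hne i h
  have hpair : ∀ i j : Fin 3, w i ∈ U → w j ∈ U → Ind2 (w i) (w j) → nu i < nu j →
      (∃ c : ℝ, 0 < c ∧ act γ (w i) = c • w i) ∧ (∃ c : ℝ, 0 < c ∧ act γ (w j) = c • w j) := by
    intro i j hi hj hij hlt'
    have hei := (Pool.Agent.PFJ.H76e.ei2 n C Γ hCC U hstr σ hσ (w i) (w j) (nu i) (nu j) hi hj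
      (hwcl i) (hwcl j) hij (hnu i) hlt' (hnui i) (hnui j)).1
    constructor
    · rcases hei _ (hmapU _ hi) (hcl i) (hne i) (nu i) (hE i) with ⟨c, hc, hh⟩ | ⟨c, hc, hh⟩
      · exact ⟨c, hc, hh⟩
      · exact (hbad i j hlt'.ne c hh).elim
    · rcases hei _ (hmapU _ hj) (hcl j) (hne j) (nu j) (hE j) with ⟨c, hc, hh⟩ | ⟨c, hc, hh⟩
      · exact (hbad j i hlt'.ne' c hh).elim
      · exact ⟨c, hc, hh⟩
  have hw0U : w 0 ∈ U := by rw [e0]; exact he.1
  have hw1U : w 1 ∈ U := by rw [e1]; exact he'.1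
  have h01 : (∃ c : ℝ, 0 < c ∧ act γ (w 0) = c • w 0) ∧
      (∃ c : ℝ, 0 < c ∧ act γ (w 1) = c • w 1) := by
    have hind : Ind2 (w 0) (w 1) := by rw [e0, e1]; exact hind2
    rcases lt_or_gt_of_ne hnn with hlt' | hlt'
    · exact hpair 0 1 hw0U hw1U hind hlt'
    · have hind' : Ind2 (w 1) (w 0) := fun a b hab =>
        (hind b a (by rw [add_comm]; exact hab)).symm
      exact (hpair 1 0 hw1U hw0U hind' hlt').symm
  have h2 : ∃ c : ℝ, 0 < c ∧ act γ (w 2) = c • w 2 := by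
    obtain ⟨κ, hκ, hk⟩ := hkap m
    obtain ⟨κ0, hκ0, hk0⟩ := hkap m0
    refine ⟨κ / κ0, by positivity, ?_⟩
    apply CC.act_injective (g m0)
    rw [hγact, CC.act_smul, e2, hk, hk0, smul_smul, div_mul_cancel₀ _ hκ0.ne']
  have hall : ∀ i, ∃ c : ℝ, 0 < c ∧ act γ (w i) = c • w i := by
    intro i
    fin_cases i
    · exact h01.1
    · exact h01.2
    · exact h2
  choose c hc hcw using hall
  refine ⟨γ, hγΓ, fun i => Real.log (c i), fun i => by rw [Real.exp_log (hc i)]; exact hcw i, ?_⟩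
  -- the computation
  have hgm : ∀ i, act (g m) (w i) = c i • act (g m0) (w i) := by
    intro i
    rw [← hγact, hcw i, CC.act_smul]
  have hn0 : ∀ i, 0 < ‖act (g m0) (w i)‖ := by
    intro i
    rw [norm_pos_iff]
    intro h
    apply hw0 i
    apply CC.act_injective (g m0)
    rw [h, CC.act_zero]
  have hlogm : ∀ i, Real.log ‖s m • act (g m) (Real.exp (((φ m : ℕ) : ℝ) * ℓ i) • w i)‖ =
      Real.log (s m) + (φ m : ℝ) * ℓ i + Real.log (c i) + Real.log ‖act (g m0) (w i)‖ := by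
    intro i
    rw [CC.act_smul, hgm i, norm_smul, norm_smul, norm_smul, Real.norm_of_nonneg (hs m).le,
      Real.norm_of_nonneg (Real.exp_pos _).le, Real.norm_of_nonneg (hc i).le,
      Real.log_mul (hs m).ne' (by have := hc i; have := hn0 i; positivity),
      Real.log_mul (Real.exp_pos _).ne' (by have := hc i; have := hn0 i; positivity),
      Real.log_mul (hc i).ne' (hn0 i).ne', Real.log_exp]
    ring
  have hlogm0 : ∀ i, Real.log ‖s m0 • act (g m0) (Real.exp (((φ m0 : ℕ) : ℝ) * ℓ i) • w i)‖ =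
      Real.log (s m0) + (φ m0 : ℝ) * ℓ i + Real.log ‖act (g m0) (w i)‖ := by
    intro i
    rw [CC.act_smul, norm_smul, norm_smul, Real.norm_of_nonneg (hs m0).le,
      Real.norm_of_nonneg (Real.exp_pos _).le,
      Real.log_mul (hs m0).ne' (by have := hn0 i; positivity),
      Real.log_mul (Real.exp_pos _).ne' (hn0 i).ne', Real.log_exp]
    ring
  have hQm : Q m = (φ m : ℝ) * ∑ i, ℓ i ^ 2 + ∑ i, ℓ i * Real.log (c i) +
      ∑ i, ℓ i * Real.log ‖act (g m0) (w i)‖ := by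
    rw [hQdef]
    simp only [hlogm]
    have : ∀ i, ℓ i * (Real.log (s m) + (φ m : ℝ) * ℓ i + Real.log (c i) +
        Real.log ‖act (g m0) (w i)‖) = Real.log (s m) * ℓ i + (φ m : ℝ) * ℓ i ^ 2 +
        ℓ i * Real.log (c i) + ℓ i * Real.log ‖act (g m0) (w i)‖ := fun i => by ring
    simp only [this]
    rw [Finset.sum_add_distrib, Finset.sum_add_distrib, Finset.sum_add_distrib, ← Finset.mul_sum,
      ← Finset.mul_sum, hℓs, mul_zero, zero_add]
  have hQm0 : Q m0 = (φ m0 : ℝ) * ∑ i, ℓ i ^ 2 +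
      ∑ i, ℓ i * Real.log ‖act (g m0) (w i)‖ := by
    rw [hQdef]
    simp only [hlogm0]
    have : ∀ i, ℓ i * (Real.log (s m0) + (φ m0 : ℝ) * ℓ i +
        Real.log ‖act (g m0) (w i)‖) = Real.log (s m0) * ℓ i + (φ m0 : ℝ) * ℓ i ^ 2 +
        ℓ i * Real.log ‖act (g m0) (w i)‖ := fun i => by ring
    simp only [this]
    rw [Finset.sum_add_distrib, Finset.sum_add_distrib, ← Finset.mul_sum,
      ← Finset.mul_sum, hℓs, mul_zero, zero_add]
  rw [hQm, hQm0] at hlt
  intro h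
  rw [h] at hlt
  linarith

end Pool.Agent.PCO.H21
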